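import Pool.Agent.Helper9.WS.Defs2
import Pool.Agent.Helper24.WS.AH

/-!
# Block WS-7: the valuations of the coefficients of the splitting factors
-/

set_option linter.unusedSectionVars false

open MvPolynomial Finset

namespace Pool.Agent.Helper9.WS

section

variable {p : ℕ} [Fact p.Prime] {κ L : Type} [Field κ] [CharP κ p] [Field L] [CharZero L]
  (Φ : Frame p κ L) {n : ℕ} {k : Type} [Field k] [Algebra k κ]

private lemma prod_mono67 {ι R σ : Type*} [CommSemiring R] (s : Finset ι) (g : ι → σ →₀ ℕ)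
    (a : ι → R) : ∏ i ∈ s, monomial (g i) (a i) = monomial (∑ i ∈ s, g i) (∏ i ∈ s, a i) := by
  classical
  induction s using Finset.induction_on with
  | empty => simp
  | insert i s hi ih =>
    rw [Finset.prod_insert hi, Finset.sum_insert hi, Finset.prod_insert hi, ih, monomial_mul]

/-- the coefficient of a term -/
private noncomputable def tm67 (γ : L) (f : MvPolynomial (Fin n) k) (i : ℕ)
    (m : f.support → ℕ) : L :=
  ∏ e : f.support, (((ah p (m e) : ℚ) : L) * (γ * Φ.T (algebraMap k κ (f.coeff e)) ^ p ^ i) ^ m e)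

private lemma coeff_fac67 (M : ℕ) (γ : L) (f : MvPolynomial (Fin n) k) (i : ℕ)
    (N : Fin n →₀ ℕ) : (fac Φ M γ f i).coeff N =
      ∑ m ∈ Fintype.piFinset (fun _ : f.support => range M),
        if ∑ e : f.support, m e • (e : Fin n →₀ ℕ) = N then tm67 Φ γ f i m else 0 := by
  classical
  have h1 : fac Φ M γ f i = ∑ m ∈ Fintype.piFinset (fun _ : f.support => range M),
      monomial (∑ e : f.support, m e • (e : Fin n →₀ ℕ)) (tm67 Φ γ f i m) := by
    rw [fac, ← Finset.prod_coe_sort, Finset.prod_univ_sum]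
    refine Finset.sum_congr rfl fun m _ => ?_
    rw [prod_mono67]
    rfl
  rw [h1, coeff_sum]
  refine Finset.sum_congr rfl fun m _ => ?_
  rw [coeff_monomial]

private lemma T_unit67 {x : κ} (hx : x ≠ 0) : Φ.v (Φ.T x) = 1 := by
  have h1 : Φ.v (Φ.T x) * Φ.v (Φ.T x⁻¹) = 1 := by
    rw [← map_mul, ← map_mul, mul_inv_cancel₀ hx, map_one, map_one]
  refine le_antisymm (Φ.T_le x) ?_
  calc (1 : Φ.O.ValueGroup) = Φ.v (Φ.T x) * Φ.v (Φ.T x⁻¹) := h1.symm
    _ ≤ Φ.v (Φ.T x) * 1 := mul_le_mul_right (Φ.T_le _) _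
    _ = Φ.v (Φ.T x) := mul_one _

private lemma tm_le67 (γ : L) (f : MvPolynomial (Fin n) k) (i : ℕ) (m : f.support → ℕ) :
    Φ.v (tm67 Φ γ f i m) ≤ Φ.v γ ^ ∑ e : f.support, m e := by
  classical
  rw [tm67, map_prod, ← Finset.prod_pow_eq_pow_sum]
  refine Finset.prod_le_prod' fun e _ => ?_
  rw [map_mul, map_pow, map_mul, map_pow, mul_pow]
  calc Φ.v ((ah p (m e) : ℚ) : L) *
        (Φ.v γ ^ m e * (Φ.v (Φ.T (algebraMap k κ (f.coeff e))) ^ p ^ i) ^ m e)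
      ≤ 1 * (Φ.v γ ^ m e * 1) :=
        mul_le_mul' (v_ah Φ _) (mul_le_mul' le_rfl (pow_le_one' (pow_le_one' (Φ.T_le _) _) _))
    _ = Φ.v γ ^ m e := by rw [one_mul, mul_one]

private lemma tm_eq67 (γ : L) (f : MvPolynomial (Fin n) k) (i : ℕ) {m : f.support → ℕ}
    (hm : ∀ e, m e < p) : Φ.v (tm67 Φ γ f i m) = Φ.v γ ^ ∑ e : f.support, m e := by
  classical
  rw [tm67, map_prod, ← Finset.prod_pow_eq_pow_sum]
  refine Finset.prod_congr rfl fun e _ => ?_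
  have h1 : algebraMap k κ (f.coeff e) ≠ 0 := by
    rw [Ne, map_eq_zero]
    exact mem_support_iff.mp e.2
  rw [map_mul, map_pow, map_mul, map_pow, T_unit67 Φ h1, one_pow, mul_one, v_ah_lt Φ (hm e),
    one_mul]

variable {C : (Fin n →₀ ℕ) → Prop} (f : MvPolynomial (Fin n) k) (ω : Weight p f.support C)

private lemma w_one67 {e : Fin n →₀ ℕ} (he : e ∈ f.support) (U : Fin n →₀ ℕ) (j : ℕ) :
    ω.w (U + (p - 1) • (j • e)) ≤ ω.w U + (p - 1) * ω.l * j := by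
  induction j with
  | zero => simp
  | succ j ih =>
    have h1 : U + (p - 1) • ((j + 1) • e) = (U + (p - 1) • (j • e)) + (p - 1) • e := by
      rw [add_smul, one_smul, smul_add, add_assoc]
    rw [h1]
    calc ω.w (U + (p - 1) • (j • e) + (p - 1) • e) ≤ ω.w (U + (p - 1) • (j • e)) + (p - 1) * ω.l :=
          ω.w_exp e he _
      _ ≤ ω.w U + (p - 1) * ω.l * j + (p - 1) * ω.l := Nat.add_le_add_right ih _
      _ = ω.w U + (p - 1) * ω.l * (j + 1) := by ring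

private lemma w_sum67 (s : Finset f.support) (U : Fin n →₀ ℕ) (m : f.support → ℕ) :
    ω.w (U + (p - 1) • ∑ e ∈ s, m e • (e : Fin n →₀ ℕ)) ≤
      ω.w U + (p - 1) * ω.l * ∑ e ∈ s, m e := by
  classical
  induction s using Finset.induction_on with
  | empty => simp
  | insert e s he ih =>
    rw [Finset.sum_insert he, Finset.sum_insert he, add_comm (m e • (e : Fin n →₀ ℕ)), smul_add,
      ← add_assoc]
    refine (w_one67 f ω e.2 _ _).trans ?_
    calc _ ≤ ω.w U + (p - 1) * ω.l * ∑ e ∈ s, m e + (p - 1) * ω.l * m e := Nat.add_le_add_right ih _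
      _ = _ := by ring

private lemma w_le67 {U V N : Fin n →₀ ℕ} (h : (p - 1) • N + V = p • U) {m : f.support → ℕ}
    (hm : ∑ e : f.support, m e • (e : Fin n →₀ ℕ) = N) :
    p * ω.w U ≤ ω.w V + (p - 1) * ω.l * ∑ e : f.support, m e := by
  rw [← ω.w_smul, ← h, ← hm, add_comm]
  exact w_sum67 f ω Finset.univ V m

omit [Fact p.Prime] [CharP κ p] [CharZero L] in
private lemma v_le67 (hp : 1 < p) {γ ϖ : L} (hγ : Φ.v γ ≤ 1)
    (hϖ : Φ.v ϖ ^ (ω.l * (p - 1)) = Φ.v γ) : Φ.v ϖ ≤ 1 := by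
  by_contra hcon
  rw [not_le] at hcon
  have h1 : ω.l * (p - 1) ≠ 0 := Nat.mul_ne_zero ω.l_pos.ne' (by omega)
  have h2 := one_lt_pow' hcon h1
  rw [hϖ] at h2
  exact absurd hγ (not_le.mpr h2)

/-- the valuation of a term -/
private lemma term67 {γ ϖ : L} (hϖ : Φ.v ϖ ^ (ω.l * (p - 1)) = Φ.v γ) (i : ℕ)
    (V : Fin n →₀ ℕ) (m : f.support → ℕ) :
    Φ.v (tm67 Φ γ f i m * ϖ ^ ω.w V) ≤
      Φ.v ϖ ^ (ω.w V + (p - 1) * ω.l * ∑ e : f.support, m e) := by
  rw [map_mul, map_pow]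
  calc _ ≤ Φ.v γ ^ (∑ e : f.support, m e) * Φ.v ϖ ^ ω.w V := mul_le_mul' (tm_le67 Φ γ f i m) le_rfl
    _ = _ := by
      rw [← hϖ, ← pow_mul, ← pow_add]
      congr 1
      ring

private lemma sum67 (M : ℕ) (γ ϖ : L) (i : ℕ) (V N : Fin n →₀ ℕ) :
    Φ.v ((fac Φ M γ f i).coeff N) * Φ.v ϖ ^ ω.w V =
      Φ.v (∑ m ∈ Fintype.piFinset (fun _ : f.support => range M),
        if ∑ e : f.support, m e • (e : Fin n →₀ ℕ) = N then tm67 Φ γ f i m * ϖ ^ ω.w V else 0) := by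
  rw [coeff_fac67, ← map_pow, ← map_mul, Finset.sum_mul]
  congr 1
  refine Finset.sum_congr rfl fun m _ => ?_
  rw [ite_mul, zero_mul]

/-- a function on the exponents, extended by zero -/
private noncomputable def ext67 (m : f.support → ℕ) : (Fin n →₀ ℕ) → ℕ :=
  fun e => by
    classical
    exact if h : e ∈ f.support then m ⟨e, h⟩ else 0

private lemma ext_coe67 (m : f.support → ℕ) (e : f.support) : ext67 f m e = m e := by
  classical
  unfold ext67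
  rw [dif_pos e.2]

private lemma ext_sum67 (m : f.support → ℕ) :
    ∑ e ∈ f.support, ext67 f m e • e = ∑ e : f.support, m e • (e : Fin n →₀ ℕ) := by
  rw [← Finset.sum_coe_sort]
  exact Finset.sum_congr rfl fun e _ => by rw [ext_coe67]

private lemma ext_sum67' (m : f.support → ℕ) :
    ∑ e ∈ f.support, ext67 f m e = ∑ e : f.support, m e := by
  rw [← Finset.sum_coe_sort]
  exact Finset.sum_congr rfl fun e _ => by rw [ext_coe67]

/-- a term which is not tight -/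
private lemma strict67 (hp : 1 < p) {γ ϖ : L} (hγ : Φ.v γ < 1) (hγ0 : γ ≠ 0)
    (hϖ : Φ.v ϖ ^ (ω.l * (p - 1)) = Φ.v γ) (i : ℕ) {U V N : Fin n →₀ ℕ}
    (h : (p - 1) • N + V = p • U) {m : f.support → ℕ}
    (hm : ∑ e : f.support, m e • (e : Fin n →₀ ℕ) = N) (hT : ¬ IsTight ω U V (ext67 f m)) :
    Φ.v (tm67 Φ γ f i m * ϖ ^ ω.w V) < Φ.v ϖ ^ (p * ω.w U) := by
  have h1 : Φ.v ϖ ≤ 1 := v_le67 Φ f ω hp hγ.le hϖ
  have h2 : Φ.v ϖ ≠ 1 := by
    intro h3
    rw [h3, one_pow] at hϖ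
    exact absurd hϖ.symm hγ.ne
  have h3 : Φ.v ϖ < 1 := lt_of_le_of_ne h1 h2
  have h4 : Φ.v ϖ ≠ 0 := by
    intro h5
    rw [h5, zero_pow (Nat.mul_ne_zero ω.l_pos.ne' (by omega))] at hϖ
    exact hγ0 ((map_eq_zero _).mp hϖ.symm)
  refine lt_of_le_of_lt (term67 Φ f ω hϖ i V m) ?_
  refine pow_lt_pow_right_of_lt_one₀ (zero_lt_iff.mpr h4) h3 ?_
  refine lt_of_le_of_ne (w_le67 f ω h hm) fun h5 => hT ⟨?_, ?_⟩
  · rw [ext_sum67, hm, h]
  · rw [ext_sum67', h5]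

theorem v_coeff_le (M : ℕ) {γ ϖ : L} (hγ : Φ.v γ ≤ 1) (hϖ : Φ.v ϖ ^ (ω.l * (p - 1)) = Φ.v γ)
    (i : ℕ) {U V N : Fin n →₀ ℕ} (h : (p - 1) • N + V = p • U) :
    Φ.v ((fac Φ M γ f i).coeff N) * Φ.v ϖ ^ ω.w V ≤ Φ.v ϖ ^ (p * ω.w U) := by
  classical
  rw [sum67 Φ f ω M γ ϖ i V N]
  refine Valuation.map_sum_le _ fun m _ => ?_
  split_ifs with hm
  · refine (term67 Φ f ω hϖ i V m).trans ?_
    exact pow_le_pow_right_of_le_one' (v_le67 Φ f ω (Fact.out : p.Prime).one_lt hγ hϖ)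
      (w_le67 f ω h hm)
  · rw [map_zero]
    exact zero_le

theorem v_coeff_lt (M : ℕ) {γ ϖ : L} (hγ : Φ.v γ < 1) (hγ0 : γ ≠ 0)
    (hϖ : Φ.v ϖ ^ (ω.l * (p - 1)) = Φ.v γ) (i : ℕ) {U V N : Fin n →₀ ℕ}
    (h : (p - 1) • N + V = p • U) (hT : ∀ m, ¬ IsTight ω U V m) :
    Φ.v ((fac Φ M γ f i).coeff N) * Φ.v ϖ ^ ω.w V < Φ.v ϖ ^ (p * ω.w U) := by
  classical
  have hp := (Fact.out : p.Prime).one_lt
  have h4 : Φ.v ϖ ≠ 0 := by
    intro h5
    rw [h5, zero_pow (Nat.mul_ne_zero ω.l_pos.ne' (by omega))] at hϖ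
    exact hγ0 ((map_eq_zero _).mp hϖ.symm)
  rw [sum67 Φ f ω M γ ϖ i V N]
  refine Valuation.map_sum_lt _ (pow_ne_zero _ h4) fun m _ => ?_
  split_ifs with hm
  · exact strict67 Φ f ω hp hγ hγ0 hϖ i h hm (hT _)
  · rw [map_zero]
    exact zero_lt_iff.mpr (pow_ne_zero _ h4)

theorem v_coeff_eq (hp : 1 < p) {M : ℕ} (hM : p ≤ M) {γ ϖ : L} (hγ : Φ.v γ < 1) (hγ0 : γ ≠ 0)
    (hϖ : Φ.v ϖ ^ (ω.l * (p - 1)) = Φ.v γ) (i : ℕ) {U V N : Fin n →₀ ℕ}
    (h : (p - 1) • N + V = p • U) {m : (Fin n →₀ ℕ) → ℕ} (hm : IsTight ω U V m)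
    (hmp : ∀ e ∈ f.support, m e < p)
    (hu : ∀ m', IsTight ω U V m' → ∀ e ∈ f.support, m' e = m e) :
    Φ.v ((fac Φ M γ f i).coeff N) * Φ.v ϖ ^ ω.w V = Φ.v ϖ ^ (p * ω.w U) := by
  classical
  have h4 : Φ.v ϖ ≠ 0 := by
    intro h5
    rw [h5, zero_pow (Nat.mul_ne_zero ω.l_pos.ne' (by omega))] at hϖ
    exact hγ0 ((map_eq_zero _).mp hϖ.symm)
  set m0 : f.support → ℕ := fun e => m e with hm0
  have hmem : m0 ∈ Fintype.piFinset (fun _ : f.support => range M) := by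
    rw [Fintype.mem_piFinset]
    intro e
    exact Finset.mem_range.mpr (lt_of_lt_of_le (hmp e e.2) hM)
  have hsum : ∑ e : f.support, m0 e • (e : Fin n →₀ ℕ) = ∑ e ∈ f.support, m e • e :=
    Finset.sum_coe_sort f.support fun e => m e • e
  have hsum' : ∑ e : f.support, m0 e = ∑ e ∈ f.support, m e :=
    Finset.sum_coe_sort f.support fun e => m e
  have hN : ∑ e : f.support, m0 e • (e : Fin n →₀ ℕ) = N := by
    have h5 : (p - 1) • N = (p - 1) • ∑ e ∈ f.support, m e • e :=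
      add_right_cancel (h.trans hm.1.symm)
    rw [hsum]
    ext j
    have h6 := DFunLike.congr_fun h5 j
    rw [Finsupp.smul_apply, Finsupp.smul_apply, smul_eq_mul, smul_eq_mul] at h6
    exact (Nat.eq_of_mul_eq_mul_left (by omega) h6).symm
  rw [sum67 Φ f ω M γ ϖ i V N, ← Finset.add_sum_erase _ _ hmem, if_pos hN]
  have hval : Φ.v (tm67 Φ γ f i m0 * ϖ ^ ω.w V) = Φ.v ϖ ^ (p * ω.w U) := by
    rw [map_mul, map_pow, tm_eq67 Φ γ f i (fun e => hmp e e.2), ← hϖ, ← pow_mul, ← pow_add,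
      ← hm.2, hsum']
    congr 1
    ring
  rw [Valuation.map_add_eq_of_lt_left, hval]
  rw [hval]
  refine Valuation.map_sum_lt _ (pow_ne_zero _ h4) fun m1 hm1 => ?_
  split_ifs with hm2
  · refine strict67 Φ f ω hp hγ hγ0 hϖ i h hm2 fun h5 => ?_
    apply Finset.ne_of_mem_erase hm1
    funext e
    rw [← ext_coe67 f m1 e, hu _ h5 e e.2]
  · rw [map_zero]
    exact zero_lt_iff.mpr (pow_ne_zero _ h4)

/-! ### the leading term -/

omit [Fact p.Prime] [CharP κ p] [CharZero L] in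
private lemma T_sum67 (hadd : ∀ x y, Φ.v (Φ.T x + Φ.T y - Φ.T (x + y)) < 1) {ι : Type*}
    (s : Finset ι) (g : ι → κ) : Φ.v (∑ i ∈ s, Φ.T (g i) - Φ.T (∑ i ∈ s, g i)) < 1 := by
  classical
  induction s using Finset.induction_on with
  | empty => simp
  | insert i s hi ih =>
    rw [Finset.sum_insert hi, Finset.sum_insert hi]
    have e1 : Φ.T (g i) + ∑ j ∈ s, Φ.T (g j) - Φ.T (g i + ∑ j ∈ s, g j) =
        (∑ j ∈ s, Φ.T (g j) - Φ.T (∑ j ∈ s, g j)) +
          (Φ.T (g i) + Φ.T (∑ j ∈ s, g j) - Φ.T (g i + ∑ j ∈ s, g j)) := by ring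
    rw [e1]
    exact Φ.v.map_add_lt ih (hadd _ _)

omit [Fact p.Prime] [CharP κ p] [CharZero L] in
private lemma T_nat67 (hadd : ∀ x y, Φ.v (Φ.T x + Φ.T y - Φ.T (x + y)) < 1) (j : ℕ) :
    Φ.v ((j : L) - Φ.T (j : κ)) < 1 := by
  have h1 := T_sum67 Φ hadd (range j) (fun _ => (1 : κ))
  simpa using h1

private lemma T_inv67 (hadd : ∀ x y, Φ.v (Φ.T x + Φ.T y - Φ.T (x + y)) < 1) {j : ℕ} (hj : j < p) :
    Φ.v (((ah p j : ℚ) : L) - Φ.T (((j.factorial : ℕ) : κ)⁻¹)) < 1 := by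
  have hp := (Fact.out : p.Prime)
  set a : L := ((ah p j : ℚ) : L) with ha
  have h1 : a * ((j.factorial : ℕ) : L) = 1 := by
    rw [ha, ah_lt hp.one_lt hj]
    push_cast
    have : ((j.factorial : ℕ) : L) ≠ 0 := Nat.cast_ne_zero.mpr (Nat.factorial_ne_zero j)
    field_simp
  have h2 : ((j.factorial : ℕ) : κ) ≠ 0 := by
    intro h3
    rw [CharP.cast_eq_zero_iff κ p] at h3
    exact absurd ((hp.dvd_factorial).mp h3) (by omega)
  have h3 : Φ.T (((j.factorial : ℕ) : κ)⁻¹) * Φ.T ((j.factorial : ℕ) : κ) = 1 := by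
    rw [← map_mul, inv_mul_cancel₀ h2, map_one]
  have e1 : a - Φ.T (((j.factorial : ℕ) : κ)⁻¹) =
      -(a * Φ.T (((j.factorial : ℕ) : κ)⁻¹) *
        (((j.factorial : ℕ) : L) - Φ.T ((j.factorial : ℕ) : κ))) := by
    have e2 : a * Φ.T (((j.factorial : ℕ) : κ)⁻¹) *
        (((j.factorial : ℕ) : L) - Φ.T ((j.factorial : ℕ) : κ)) =
        (a * ((j.factorial : ℕ) : L)) * Φ.T (((j.factorial : ℕ) : κ)⁻¹) -
          a * (Φ.T (((j.factorial : ℕ) : κ)⁻¹) * Φ.T ((j.factorial : ℕ) : κ)) := by ring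
    rw [e2, h1, h3]
    ring
  rw [e1, Valuation.map_neg, map_mul, map_mul]
  calc _ ≤ 1 * 1 * Φ.v (((j.factorial : ℕ) : L) - Φ.T ((j.factorial : ℕ) : κ)) :=
        mul_le_mul' (mul_le_mul' (v_ah Φ _) (Φ.T_le _)) le_rfl
    _ < 1 := by
      rw [one_mul, one_mul]
      exact T_nat67 Φ hadd _

omit [Fact p.Prime] [CharP κ p] [CharZero L] in
private lemma prod_close67 {ι : Type*} (s : Finset ι) (a b : ι → L) (ha : ∀ i ∈ s, Φ.v (a i) ≤ 1)
    (hb : ∀ i ∈ s, Φ.v (b i) ≤ 1) (hab : ∀ i ∈ s, Φ.v (a i - b i) < 1) :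
    Φ.v (∏ i ∈ s, a i - ∏ i ∈ s, b i) < 1 := by
  classical
  induction s using Finset.induction_on with
  | empty => simp
  | insert i s hi ih =>
    rw [Finset.prod_insert hi, Finset.prod_insert hi]
    have e1 : a i * ∏ j ∈ s, a j - b i * ∏ j ∈ s, b j =
        (a i - b i) * ∏ j ∈ s, a j + b i * (∏ j ∈ s, a j - ∏ j ∈ s, b j) := by ring
    rw [e1]
    have h1 : Φ.v (∏ j ∈ s, a j) ≤ 1 := by
      rw [map_prod]
      exact Finset.prod_le_one' fun j hj => ha j (Finset.mem_insert_of_mem hj)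
    refine Φ.v.map_add_lt ?_ ?_
    · rw [map_mul]
      calc _ ≤ Φ.v (a i - b i) * 1 := mul_le_mul' le_rfl h1
        _ < 1 := by rw [mul_one]; exact hab i (Finset.mem_insert_self _ _)
    · rw [map_mul]
      calc _ ≤ 1 * Φ.v (∏ j ∈ s, a j - ∏ j ∈ s, b j) :=
            mul_le_mul' (hb i (Finset.mem_insert_self _ _)) le_rfl
        _ < 1 := by
          rw [one_mul]
          exact ih (fun j hj => ha j (Finset.mem_insert_of_mem hj))
            (fun j hj => hb j (Finset.mem_insert_of_mem hj))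
            (fun j hj => hab j (Finset.mem_insert_of_mem hj))

open scoped Classical in
/-- a term of `lead` -/
private noncomputable def ld67 (i : ℕ) (U V : Fin n →₀ ℕ) (m : f.support → ℕ) : k :=
  if IsTight ω U V (ext67 f m) then
    ∏ e : f.support, f.coeff (e : Fin n →₀ ℕ) ^ (p ^ i * m e) * (((m e).factorial : ℕ) : k)⁻¹
  else 0

omit [Fact p.Prime] in
private lemma lead_eq67 (i : ℕ) (U V : Fin n →₀ ℕ) {M : ℕ} (hM : p ≤ M)
    (hm : ∀ m, IsTight ω U V m → ∀ e ∈ f.support, m e < p) :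
    lead f ω i U V = ∑ m ∈ Fintype.piFinset (fun _ : f.support => range M), ld67 f ω i U V m := by
  classical
  have h1 : ∑ m ∈ Fintype.piFinset (fun _ : f.support => range M), ld67 f ω i U V m =
      ∑ m ∈ Fintype.piFinset (fun _ : f.support => range p), ld67 f ω i U V m := by
    symm
    refine Finset.sum_subset ?_ fun m _ hm' => ?_
    · exact Fintype.piFinset_subset _ _ fun _ => Finset.range_mono hM
    · unfold ld67
      rw [if_neg]
      intro hT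
      apply hm'
      rw [Fintype.mem_piFinset]
      intro e
      have h2 := hm _ hT e e.2
      rw [ext_coe67] at h2
      exact Finset.mem_range.mpr h2
  rw [h1]
  unfold lead
  refine Finset.sum_bij (fun (m : f.support → Fin p) _ => fun e => (m e : ℕ)) ?_ ?_ ?_ ?_
  · intro m _
    rw [Fintype.mem_piFinset]
    exact fun e => Finset.mem_range.mpr (m e).2
  · intro m _ m' _ h2
    funext e
    exact Fin.ext (congrFun h2 e)
  · intro m hm2
    rw [Fintype.mem_piFinset] at hm2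
    exact ⟨fun e => ⟨m e, Finset.mem_range.mp (hm2 e)⟩, Finset.mem_univ _, rfl⟩
  · intro m _
    unfold ld67 ext67
    rfl

private lemma main_term67 (hadd : ∀ x y, Φ.v (Φ.T x + Φ.T y - Φ.T (x + y)) < 1) {γ ϖ : L}
    (hγ : Φ.v γ < 1) (hγ0 : γ ≠ 0) (hϖ : ϖ ^ (ω.l * (p - 1)) = γ) (i : ℕ)
    {U V N : Fin n →₀ ℕ} (h : (p - 1) • N + V = p • U)
    (hm : ∀ m, IsTight ω U V m → ∀ e ∈ f.support, m e < p) (m : f.support → ℕ) :
    Φ.v ((if ∑ e : f.support, m e • (e : Fin n →₀ ℕ) = N then tm67 Φ γ f i m * ϖ ^ ω.w V else 0) -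
      ϖ ^ (p * ω.w U) * Φ.T (algebraMap k κ (ld67 f ω i U V m))) < Φ.v ϖ ^ (p * ω.w U) := by
  classical
  have hp := (Fact.out : p.Prime).one_lt
  have hϖ' : Φ.v ϖ ^ (ω.l * (p - 1)) = Φ.v γ := by rw [← map_pow, hϖ]
  have h4 : Φ.v ϖ ≠ 0 := by
    intro h5
    rw [h5, zero_pow (Nat.mul_ne_zero ω.l_pos.ne' (by omega))] at hϖ'
    exact hγ0 ((map_eq_zero _).mp hϖ'.symm)
  have h5 : (0 : Φ.O.ValueGroup) < Φ.v ϖ ^ (p * ω.w U) := zero_lt_iff.mpr (pow_ne_zero _ h4)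
  by_cases hT : IsTight ω U V (ext67 f m)
  · have hN : ∑ e : f.support, m e • (e : Fin n →₀ ℕ) = N := by
      have h6 : (p - 1) • N = (p - 1) • ∑ e ∈ f.support, ext67 f m e • e :=
        add_right_cancel (h.trans hT.1.symm)
      rw [← ext_sum67]
      ext j
      have h7 := DFunLike.congr_fun h6 j
      rw [Finsupp.smul_apply, Finsupp.smul_apply, smul_eq_mul, smul_eq_mul] at h7
      exact (Nat.eq_of_mul_eq_mul_left (by omega) h7).symm
    have hlt : ∀ e : f.support, m e < p := by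
      intro e
      have h6 := hm _ hT e e.2
      rwa [ext_coe67] at h6
    have hw := hT.2
    rw [ext_sum67'] at hw
    rw [if_pos hN]
    have e1 : tm67 Φ γ f i m * ϖ ^ ω.w V = ϖ ^ (p * ω.w U) *
        ∏ e : f.support, (((ah p (m e) : ℚ) : L) *
          Φ.T (algebraMap k κ (f.coeff e)) ^ (p ^ i * m e)) := by
      have e2 : tm67 Φ γ f i m = γ ^ (∑ e : f.support, m e) *
          ∏ e : f.support, (((ah p (m e) : ℚ) : L) *
            Φ.T (algebraMap k κ (f.coeff e)) ^ (p ^ i * m e)) := by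
        rw [tm67, ← Finset.prod_pow_eq_pow_sum, ← Finset.prod_mul_distrib]
        refine Finset.prod_congr rfl fun e _ => ?_
        rw [mul_pow, ← pow_mul]
        ring
      rw [e2, ← hw, ← hϖ, ← pow_mul, pow_add]
      have e3 : ω.l * (p - 1) * ∑ e : f.support, m e = (p - 1) * ω.l * ∑ e : f.support, m e := by
        ring
      rw [e3]
      ring
    have e4 : Φ.T (algebraMap k κ (ld67 f ω i U V m)) =
        ∏ e : f.support, (Φ.T ((((m e).factorial : ℕ) : κ)⁻¹) *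
          Φ.T (algebraMap k κ (f.coeff e)) ^ (p ^ i * m e)) := by
      unfold ld67
      rw [if_pos hT, map_prod, map_prod]
      refine Finset.prod_congr rfl fun e _ => ?_
      rw [map_mul, map_pow, map_inv₀, map_natCast, map_mul, map_pow, mul_comm]
    rw [e1, e4, ← mul_sub, map_mul, map_pow]
    have h6 : Φ.v (∏ e : f.support, (((ah p (m e) : ℚ) : L) *
          Φ.T (algebraMap k κ (f.coeff e)) ^ (p ^ i * m e)) -
        ∏ e : f.support, (Φ.T ((((m e).factorial : ℕ) : κ)⁻¹) *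
          Φ.T (algebraMap k κ (f.coeff e)) ^ (p ^ i * m e))) < 1 := by
      refine prod_close67 Φ _ _ _ (fun e _ => ?_) (fun e _ => ?_) (fun e _ => ?_)
      · rw [map_mul, map_pow]
        exact mul_le_one' (v_ah Φ _) (pow_le_one' (Φ.T_le _) _)
      · rw [map_mul, map_pow]
        exact mul_le_one' (Φ.T_le _) (pow_le_one' (Φ.T_le _) _)
      · rw [← sub_mul, map_mul, map_pow]
        calc _ ≤ Φ.v (((ah p (m e) : ℚ) : L) - Φ.T ((((m e).factorial : ℕ) : κ)⁻¹)) * 1 :=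
              mul_le_mul' le_rfl (pow_le_one' (Φ.T_le _) _)
          _ < 1 := by rw [mul_one]; exact T_inv67 Φ hadd (hlt e)
    calc _ < Φ.v ϖ ^ (p * ω.w U) * 1 := mul_lt_mul_of_pos_left h6 h5
      _ = _ := mul_one _
  · have e1 : ld67 f ω i U V m = 0 := if_neg hT
    rw [e1, map_zero, map_zero, mul_zero, sub_zero]
    split_ifs with hN
    · exact strict67 Φ f ω hp hγ hγ0 hϖ' i h hN hT
    · rw [map_zero]
      exact h5

theorem v_coeff_lead (hadd : ∀ x y, Φ.v (Φ.T x + Φ.T y - Φ.T (x + y)) < 1) {M : ℕ} (hM : p ≤ M)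
    {γ ϖ : L} (hγ : Φ.v γ < 1) (hγ0 : γ ≠ 0) (hϖ : ϖ ^ (ω.l * (p - 1)) = γ) (i : ℕ)
    {U V N : Fin n →₀ ℕ} (h : (p - 1) • N + V = p • U)
    (hm : ∀ m, IsTight ω U V m → ∀ e ∈ f.support, m e < p) :
    Φ.v ((fac Φ M γ f i).coeff N * ϖ ^ ω.w V -
      ϖ ^ (p * ω.w U) * Φ.T (algebraMap k κ (lead f ω i U V))) < Φ.v ϖ ^ (p * ω.w U) := by
  classical
  have hp := (Fact.out : p.Prime).one_lt
  have hϖ' : Φ.v ϖ ^ (ω.l * (p - 1)) = Φ.v γ := by rw [← map_pow, hϖ]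
  have h4 : Φ.v ϖ ≠ 0 := by
    intro h5
    rw [h5, zero_pow (Nat.mul_ne_zero ω.l_pos.ne' (by omega))] at hϖ'
    exact hγ0 ((map_eq_zero _).mp hϖ'.symm)
  have h5 : (0 : Φ.O.ValueGroup) < Φ.v ϖ ^ (p * ω.w U) := zero_lt_iff.mpr (pow_ne_zero _ h4)
  rw [lead_eq67 f ω i U V hM hm, map_sum, coeff_fac67, Finset.sum_mul]
  set S := Fintype.piFinset (fun _ : f.support => range M) with hS
  have e1 : ∑ m ∈ S, (if ∑ e : f.support, m e • (e : Fin n →₀ ℕ) = N then tm67 Φ γ f i m else 0) *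
        ϖ ^ ω.w V - ϖ ^ (p * ω.w U) * Φ.T (∑ m ∈ S, algebraMap k κ (ld67 f ω i U V m)) =
      ∑ m ∈ S, ((if ∑ e : f.support, m e • (e : Fin n →₀ ℕ) = N then
          tm67 Φ γ f i m * ϖ ^ ω.w V else 0) -
        ϖ ^ (p * ω.w U) * Φ.T (algebraMap k κ (ld67 f ω i U V m))) +
      ϖ ^ (p * ω.w U) * (∑ m ∈ S, Φ.T (algebraMap k κ (ld67 f ω i U V m)) -
        Φ.T (∑ m ∈ S, algebraMap k κ (ld67 f ω i U V m))) := by
    rw [Finset.sum_sub_distrib, ← Finset.mul_sum, mul_sub]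
    have e2 : ∀ m ∈ S, (if ∑ e : f.support, m e • (e : Fin n →₀ ℕ) = N then tm67 Φ γ f i m else 0) *
        ϖ ^ ω.w V = if ∑ e : f.support, m e • (e : Fin n →₀ ℕ) = N then
          tm67 Φ γ f i m * ϖ ^ ω.w V else 0 := by
      intro m _
      rw [ite_mul, zero_mul]
    rw [Finset.sum_congr rfl e2]
    ring
  rw [e1]
  refine Φ.v.map_add_lt ?_ ?_
  · exact Valuation.map_sum_lt _ h5.ne' fun m _ => main_term67 Φ f ω hadd hγ hγ0 hϖ i h hm m
  · rw [map_mul, map_pow]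
    calc _ < Φ.v ϖ ^ (p * ω.w U) * 1 := mul_lt_mul_of_pos_left (T_sum67 Φ hadd S _) h5
      _ = _ := mul_one _

end

end Pool.Agent.Helper9.WS
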