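import Pool.Agent.Helper9.WS.Defs5
import Pool.Agent.Helper24.WS.AH

/-!
# Block WS-31: the tight terms of the coefficients of the splitting factors
-/

set_option linter.unusedSectionVars false

open MvPolynomial Finset

namespace Pool.Agent.Helper9.WS

section

variable {p : ℕ} [Fact p.Prime] {κ L : Type} [Field κ] [CharP κ p] [Field L] [CharZero L]
  (Φ : Frame p κ L) {n : ℕ} {k : Type} [Field k] [Algebra k κ]

private lemma prod_mono67 {ι R σ : Type*} [CommSemiring R] (s : Finset ι) (g : ι → σ →₀ ℕ)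
    (a : ι → R) : ∏ i ∈ s, monomial (g i) (a i) = monomial (∑ i ∈ s, g i) (∏ i ∈ s, a i) := by
  classical
  induction s using Finset.induction_on with
  | empty => simp
  | insert i s hi ih =>
    rw [Finset.prod_insert hi, Finset.sum_insert hi, Finset.prod_insert hi, ih, monomial_mul]

/-- the coefficient of a term -/
private noncomputable def tm67 (γ : L) (f : MvPolynomial (Fin n) k) (i : ℕ)
    (m : f.support → ℕ) : L :=
  ∏ e : f.support, (((ah p (m e) : ℚ) : L) * (γ * Φ.T (algebraMap k κ (f.coeff e)) ^ p ^ i) ^ m e)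

private lemma coeff_fac67 (M : ℕ) (γ : L) (f : MvPolynomial (Fin n) k) (i : ℕ)
    (N : Fin n →₀ ℕ) : (fac Φ M γ f i).coeff N =
      ∑ m ∈ Fintype.piFinset (fun _ : f.support => range M),
        if ∑ e : f.support, m e • (e : Fin n →₀ ℕ) = N then tm67 Φ γ f i m else 0 := by
  classical
  have h1 : fac Φ M γ f i = ∑ m ∈ Fintype.piFinset (fun _ : f.support => range M),
      monomial (∑ e : f.support, m e • (e : Fin n →₀ ℕ)) (tm67 Φ γ f i m) := by
    rw [fac, ← Finset.prod_coe_sort, Finset.prod_univ_sum]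
    refine Finset.sum_congr rfl fun m _ => ?_
    rw [prod_mono67]
    rfl
  rw [h1, coeff_sum]
  refine Finset.sum_congr rfl fun m _ => ?_
  rw [coeff_monomial]

private lemma T_unit67 {x : κ} (hx : x ≠ 0) : Φ.v (Φ.T x) = 1 := by
  have h1 : Φ.v (Φ.T x) * Φ.v (Φ.T x⁻¹) = 1 := by
    rw [← map_mul, ← map_mul, mul_inv_cancel₀ hx, map_one, map_one]
  refine le_antisymm (Φ.T_le x) ?_
  calc (1 : Φ.O.ValueGroup) = Φ.v (Φ.T x) * Φ.v (Φ.T x⁻¹) := h1.symm
    _ ≤ Φ.v (Φ.T x) * 1 := mul_le_mul_right (Φ.T_le _) _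
    _ = Φ.v (Φ.T x) := mul_one _

private lemma tm_le67 (γ : L) (f : MvPolynomial (Fin n) k) (i : ℕ) (m : f.support → ℕ) :
    Φ.v (tm67 Φ γ f i m) ≤ Φ.v γ ^ ∑ e : f.support, m e := by
  classical
  rw [tm67, map_prod, ← Finset.prod_pow_eq_pow_sum]
  refine Finset.prod_le_prod' fun e _ => ?_
  rw [map_mul, map_pow, map_mul, map_pow, mul_pow]
  calc Φ.v ((ah p (m e) : ℚ) : L) *
        (Φ.v γ ^ m e * (Φ.v (Φ.T (algebraMap k κ (f.coeff e))) ^ p ^ i) ^ m e)
      ≤ 1 * (Φ.v γ ^ m e * 1) :=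
        mul_le_mul' (v_ah Φ _) (mul_le_mul' le_rfl (pow_le_one' (pow_le_one' (Φ.T_le _) _) _))
    _ = Φ.v γ ^ m e := by rw [one_mul, mul_one]

private lemma tm_eq67 (γ : L) (f : MvPolynomial (Fin n) k) (i : ℕ) {m : f.support → ℕ}
    (hm : ∀ e, m e < p) : Φ.v (tm67 Φ γ f i m) = Φ.v γ ^ ∑ e : f.support, m e := by
  classical
  rw [tm67, map_prod, ← Finset.prod_pow_eq_pow_sum]
  refine Finset.prod_congr rfl fun e _ => ?_
  have h1 : algebraMap k κ (f.coeff e) ≠ 0 := by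
    rw [Ne, map_eq_zero]
    exact mem_support_iff.mp e.2
  rw [map_mul, map_pow, map_mul, map_pow, T_unit67 Φ h1, one_pow, mul_one, v_ah_lt Φ (hm e),
    one_mul]

variable {C : (Fin n →₀ ℕ) → Prop} (f : MvPolynomial (Fin n) k) (ω : Weight p f.support C)

private lemma w_one67 {e : Fin n →₀ ℕ} (he : e ∈ f.support) (U : Fin n →₀ ℕ) (j : ℕ) :
    ω.w (U + (p - 1) • (j • e)) ≤ ω.w U + (p - 1) * ω.l * j := by
  induction j with
  | zero => simp
  | succ j ih =>
    have h1 : U + (p - 1) • ((j + 1) • e) = (U + (p - 1) • (j • e)) + (p - 1) • e := by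
      rw [add_smul, one_smul, smul_add, add_assoc]
    rw [h1]
    calc ω.w (U + (p - 1) • (j • e) + (p - 1) • e) ≤ ω.w (U + (p - 1) • (j • e)) + (p - 1) * ω.l :=
          ω.w_exp e he _
      _ ≤ ω.w U + (p - 1) * ω.l * j + (p - 1) * ω.l := Nat.add_le_add_right ih _
      _ = ω.w U + (p - 1) * ω.l * (j + 1) := by ring

private lemma w_sum67 (s : Finset f.support) (U : Fin n →₀ ℕ) (m : f.support → ℕ) :
    ω.w (U + (p - 1) • ∑ e ∈ s, m e • (e : Fin n →₀ ℕ)) ≤
      ω.w U + (p - 1) * ω.l * ∑ e ∈ s, m e := by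
  classical
  induction s using Finset.induction_on with
  | empty => simp
  | insert e s he ih =>
    rw [Finset.sum_insert he, Finset.sum_insert he, add_comm (m e • (e : Fin n →₀ ℕ)), smul_add,
      ← add_assoc]
    refine (w_one67 f ω e.2 _ _).trans ?_
    calc _ ≤ ω.w U + (p - 1) * ω.l * ∑ e ∈ s, m e + (p - 1) * ω.l * m e := Nat.add_le_add_right ih _
      _ = _ := by ring

private lemma w_le67 {U V N : Fin n →₀ ℕ} (h : (p - 1) • N + V = p • U) {m : f.support → ℕ}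
    (hm : ∑ e : f.support, m e • (e : Fin n →₀ ℕ) = N) :
    p * ω.w U ≤ ω.w V + (p - 1) * ω.l * ∑ e : f.support, m e := by
  rw [← ω.w_smul, ← h, ← hm, add_comm]
  exact w_sum67 f ω Finset.univ V m

omit [Fact p.Prime] [CharP κ p] [CharZero L] in
private lemma v_le67 (hp : 1 < p) {γ ϖ : L} (hγ : Φ.v γ ≤ 1)
    (hϖ : Φ.v ϖ ^ (ω.l * (p - 1)) = Φ.v γ) : Φ.v ϖ ≤ 1 := by
  by_contra hcon
  rw [not_le] at hcon
  have h1 : ω.l * (p - 1) ≠ 0 := Nat.mul_ne_zero ω.l_pos.ne' (by omega)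
  have h2 := one_lt_pow' hcon h1
  rw [hϖ] at h2
  exact absurd hγ (not_le.mpr h2)

/-- the valuation of a term -/
private lemma term67 {γ ϖ : L} (hϖ : Φ.v ϖ ^ (ω.l * (p - 1)) = Φ.v γ) (i : ℕ)
    (V : Fin n →₀ ℕ) (m : f.support → ℕ) :
    Φ.v (tm67 Φ γ f i m * ϖ ^ ω.w V) ≤
      Φ.v ϖ ^ (ω.w V + (p - 1) * ω.l * ∑ e : f.support, m e) := by
  rw [map_mul, map_pow]
  calc _ ≤ Φ.v γ ^ (∑ e : f.support, m e) * Φ.v ϖ ^ ω.w V := mul_le_mul' (tm_le67 Φ γ f i m) le_rfl
    _ = _ := by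
      rw [← hϖ, ← pow_mul, ← pow_add]
      congr 1
      ring

private lemma sum67 (M : ℕ) (γ ϖ : L) (i : ℕ) (V N : Fin n →₀ ℕ) :
    Φ.v ((fac Φ M γ f i).coeff N) * Φ.v ϖ ^ ω.w V =
      Φ.v (∑ m ∈ Fintype.piFinset (fun _ : f.support => range M),
        if ∑ e : f.support, m e • (e : Fin n →₀ ℕ) = N then tm67 Φ γ f i m * ϖ ^ ω.w V else 0) := by
  rw [coeff_fac67, ← map_pow, ← map_mul, Finset.sum_mul]
  congr 1
  refine Finset.sum_congr rfl fun m _ => ?_
  rw [ite_mul, zero_mul]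

/-- a function on the exponents, extended by zero -/
private noncomputable def ext67 (m : f.support → ℕ) : (Fin n →₀ ℕ) → ℕ :=
  fun e => by
    classical
    exact if h : e ∈ f.support then m ⟨e, h⟩ else 0

private lemma ext_coe67 (m : f.support → ℕ) (e : f.support) : ext67 f m e = m e := by
  classical
  unfold ext67
  rw [dif_pos e.2]

private lemma ext_sum67 (m : f.support → ℕ) :
    ∑ e ∈ f.support, ext67 f m e • e = ∑ e : f.support, m e • (e : Fin n →₀ ℕ) := by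
  rw [← Finset.sum_coe_sort]
  exact Finset.sum_congr rfl fun e _ => by rw [ext_coe67]

private lemma ext_sum67' (m : f.support → ℕ) :
    ∑ e ∈ f.support, ext67 f m e = ∑ e : f.support, m e := by
  rw [← Finset.sum_coe_sort]
  exact Finset.sum_congr rfl fun e _ => by rw [ext_coe67]

/-- a term which is not tight -/
private lemma strict67 (hp : 1 < p) {γ ϖ : L} (hγ : Φ.v γ < 1) (hγ0 : γ ≠ 0)
    (hϖ : Φ.v ϖ ^ (ω.l * (p - 1)) = Φ.v γ) (i : ℕ) {U V N : Fin n →₀ ℕ}
    (h : (p - 1) • N + V = p • U) {m : f.support → ℕ}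
    (hm : ∑ e : f.support, m e • (e : Fin n →₀ ℕ) = N) (hT : ¬ IsTight ω U V (ext67 f m)) :
    Φ.v (tm67 Φ γ f i m * ϖ ^ ω.w V) < Φ.v ϖ ^ (p * ω.w U) := by
  have h1 : Φ.v ϖ ≤ 1 := v_le67 Φ f ω hp hγ.le hϖ
  have h2 : Φ.v ϖ ≠ 1 := by
    intro h3
    rw [h3, one_pow] at hϖ
    exact absurd hϖ.symm hγ.ne
  have h3 : Φ.v ϖ < 1 := lt_of_le_of_ne h1 h2
  have h4 : Φ.v ϖ ≠ 0 := by
    intro h5
    rw [h5, zero_pow (Nat.mul_ne_zero ω.l_pos.ne' (by omega))] at hϖ
    exact hγ0 ((map_eq_zero _).mp hϖ.symm)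
  refine lt_of_le_of_lt (term67 Φ f ω hϖ i V m) ?_
  refine pow_lt_pow_right_of_lt_one₀ (zero_lt_iff.mpr h4) h3 ?_
  refine lt_of_le_of_ne (w_le67 f ω h hm) fun h5 => hT ⟨?_, ?_⟩
  · rw [ext_sum67, hm, h]
  · rw [ext_sum67', h5]

open scoped Classical in
/-- a term of `tightSum` -/
private noncomputable def td67 (i : ℕ) (U V : Fin n →₀ ℕ) (m : f.support → ℕ) : L :=
  if IsTight ω U V (ext67 f m) then
    ∏ e : f.support, ((ah p (m e : ℕ) : ℚ) : L) *
      Φ.T (algebraMap k κ (f.coeff (e : Fin n →₀ ℕ))) ^ (p ^ i * m e)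
  else 0

private lemma tight_eq67 (i : ℕ) (U V : Fin n →₀ ℕ) (M : ℕ) :
    tightSum Φ M f ω i U V =
      ∑ m ∈ Fintype.piFinset (fun _ : f.support => range M), td67 Φ f ω i U V m := by
  classical
  unfold tightSum
  refine Finset.sum_bij (fun (m : f.support → Fin M) _ => fun e => (m e : ℕ)) ?_ ?_ ?_ ?_
  · intro m _
    rw [Fintype.mem_piFinset]
    exact fun e => Finset.mem_range.mpr (m e).2
  · intro m _ m' _ h2
    funext e
    exact Fin.ext (congrFun h2 e)
  · intro m hm2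
    rw [Fintype.mem_piFinset] at hm2
    exact ⟨fun e => ⟨m e, Finset.mem_range.mp (hm2 e)⟩, Finset.mem_univ _, rfl⟩
  · intro m _
    unfold td67 ext67
    rfl

private lemma tight_term67 {γ ϖ : L} (hγ : Φ.v γ < 1) (hγ0 : γ ≠ 0)
    (hϖ : ϖ ^ (ω.l * (p - 1)) = γ) (i : ℕ)
    {U V N : Fin n →₀ ℕ} (h : (p - 1) • N + V = p • U) (m : f.support → ℕ) :
    Φ.v ((if ∑ e : f.support, m e • (e : Fin n →₀ ℕ) = N then tm67 Φ γ f i m * ϖ ^ ω.w V else 0) -
      ϖ ^ (p * ω.w U) * td67 Φ f ω i U V m) < Φ.v ϖ ^ (p * ω.w U) := by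
  classical
  have hp := (Fact.out : p.Prime).one_lt
  have hϖ' : Φ.v ϖ ^ (ω.l * (p - 1)) = Φ.v γ := by rw [← map_pow, hϖ]
  have h4 : Φ.v ϖ ≠ 0 := by
    intro h5
    rw [h5, zero_pow (Nat.mul_ne_zero ω.l_pos.ne' (by omega))] at hϖ'
    exact hγ0 ((map_eq_zero _).mp hϖ'.symm)
  have h5 : (0 : Φ.O.ValueGroup) < Φ.v ϖ ^ (p * ω.w U) := zero_lt_iff.mpr (pow_ne_zero _ h4)
  by_cases hT : IsTight ω U V (ext67 f m)
  · have hN : ∑ e : f.support, m e • (e : Fin n →₀ ℕ) = N := by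
      have h6 : (p - 1) • N = (p - 1) • ∑ e ∈ f.support, ext67 f m e • e :=
        add_right_cancel (h.trans hT.1.symm)
      rw [← ext_sum67]
      ext j
      have h7 := DFunLike.congr_fun h6 j
      rw [Finsupp.smul_apply, Finsupp.smul_apply, smul_eq_mul, smul_eq_mul] at h7
      exact (Nat.eq_of_mul_eq_mul_left (by omega) h7).symm
    have hw := hT.2
    rw [ext_sum67'] at hw
    rw [if_pos hN]
    have e1 : tm67 Φ γ f i m * ϖ ^ ω.w V = ϖ ^ (p * ω.w U) * td67 Φ f ω i U V m := by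
      have e2 : tm67 Φ γ f i m = γ ^ (∑ e : f.support, m e) *
          ∏ e : f.support, (((ah p (m e) : ℚ) : L) *
            Φ.T (algebraMap k κ (f.coeff e)) ^ (p ^ i * m e)) := by
        rw [tm67, ← Finset.prod_pow_eq_pow_sum, ← Finset.prod_mul_distrib]
        refine Finset.prod_congr rfl fun e _ => ?_
        rw [mul_pow, ← pow_mul]
        ring
      unfold td67
      rw [if_pos hT, e2, ← hw, ← hϖ, ← pow_mul, pow_add]
      have e3 : ω.l * (p - 1) * ∑ e : f.support, m e = (p - 1) * ω.l * ∑ e : f.support, m e := by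
        ring
      rw [e3]
      ring
    rw [e1, sub_self, map_zero]
    exact h5
  · have e1 : td67 Φ f ω i U V m = 0 := if_neg hT
    rw [e1, mul_zero, sub_zero]
    split_ifs with hN
    · exact strict67 Φ f ω hp hγ hγ0 hϖ' i h hN hT
    · rw [map_zero]
      exact h5

theorem v_coeff_tight (M : ℕ) {γ ϖ : L} (hγ : Φ.v γ < 1) (hγ0 : γ ≠ 0)
    (hϖ : ϖ ^ (ω.l * (p - 1)) = γ) (i : ℕ) {U V N : Fin n →₀ ℕ} (h : (p - 1) • N + V = p • U) :
    Φ.v ((fac Φ M γ f i).coeff N * ϖ ^ ω.w V - ϖ ^ (p * ω.w U) * tightSum Φ M f ω i U V) <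
      Φ.v ϖ ^ (p * ω.w U) := by
  classical
  have hp := (Fact.out : p.Prime).one_lt
  have hϖ' : Φ.v ϖ ^ (ω.l * (p - 1)) = Φ.v γ := by rw [← map_pow, hϖ]
  have h4 : Φ.v ϖ ≠ 0 := by
    intro h5
    rw [h5, zero_pow (Nat.mul_ne_zero ω.l_pos.ne' (by omega))] at hϖ'
    exact hγ0 ((map_eq_zero _).mp hϖ'.symm)
  have h5 : (0 : Φ.O.ValueGroup) < Φ.v ϖ ^ (p * ω.w U) := zero_lt_iff.mpr (pow_ne_zero _ h4)
  rw [tight_eq67, coeff_fac67, Finset.sum_mul, Finset.mul_sum, ← Finset.sum_sub_distrib]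
  refine Valuation.map_sum_lt _ h5.ne' fun m _ => ?_
  rw [ite_mul, zero_mul]
  exact tight_term67 Φ f ω hγ hγ0 hϖ i h m

end

section

variable {p : ℕ} [Fact p.Prime] {κ L : Type} [Field κ] [CharP κ p] [Field L] [CharZero L]
  (Φ : Frame p κ L) {n : ℕ} {k : Type} [Field k] [Algebra k κ]
variable {C C' : (Fin n →₀ ℕ) → Prop}

theorem tightSum_compare {f f' : MvPolynomial (Fin n) k} {ω : Weight p f.support C}
    {ω' : Weight p f'.support C'} {c : Fin n → ℕ} {W : ℕ} (h : Compare ω ω' c W) {M : ℕ}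
    (hM : 0 < M) (i : ℕ) {Z : Finset (Fin n)} {a : ℕ} (ha : Z.card ≤ a) {U V : Fin n →₀ ℕ}
    (hU : Cls p c Z U) (hV : Cls p c Z V) (hCU : C U) (hCV : C V)
    (hwU : ω.w U + a * ((p - 1) * ω.l) = W) (hwV : ω.w V + a * ((p - 1) * ω.l) = W) :
    tightSum Φ M f ω i U V = tightSum Φ M f' ω' i U V := by
  classical
  have hT := h.tight Z a U V ha hU hV hCU hCV hwU hwV
  symm
  unfold tightSum
  refine Finset.sum_of_injOn
    (fun (m' : f'.support → Fin M) (e : f.support) =>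
      if he : (e : Fin n →₀ ℕ) ∈ f'.support then m' ⟨e, he⟩ else ⟨0, hM⟩) ?_ ?_ ?_ ?_
  · intro m1 _ m2 _ h12
    funext e
    have h3 := congrFun h12 ⟨e, h.sub e.2⟩
    simpa using h3
  · intro m _
    simp
  · intro m _ hm
    rw [if_neg]
    intro h1
    have h2 := ((hT _).mp h1).2
    apply hm
    refine ⟨fun e => m ⟨e, h.sub e.2⟩, by simp, ?_⟩
    funext e
    by_cases he : (e : Fin n →₀ ℕ) ∈ f'.support
    · simp only [he, dif_pos]
    · simp only [he, dif_neg, not_false_eq_true]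
      have h3 := h2 e e.2 he
      rw [dif_pos e.2] at h3
      exact Fin.ext h3.symm
  · intro m' _
    have hfun : (fun e : Fin n →₀ ℕ => if he : e ∈ f.support then
        (((if he' : ((⟨e, he⟩ : f.support) : Fin n →₀ ℕ) ∈ f'.support then m' ⟨_, he'⟩ else ⟨0, hM⟩ :
          Fin M)) : ℕ) else 0) =
        fun e : Fin n →₀ ℕ => if he : e ∈ f'.support then (m' ⟨e, he⟩ : ℕ) else 0 := by
      funext e
      by_cases he' : e ∈ f'.support
      · have he : e ∈ f.support := h.sub he'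
        simp only [he, he', dif_pos]
      · by_cases he : e ∈ f.support
        · simp only [he, he', dif_pos, dif_neg, not_false_eq_true]
        · simp only [he, he', dif_neg, not_false_eq_true]
    have hiff : IsTight ω' U V (fun e : Fin n →₀ ℕ => if he : e ∈ f'.support then
        (m' ⟨e, he⟩ : ℕ) else 0) ↔ IsTight ω U V (fun e : Fin n →₀ ℕ => if he : e ∈ f.support then
        (((if he' : ((⟨e, he⟩ : f.support) : Fin n →₀ ℕ) ∈ f'.support then m' ⟨_, he'⟩ else ⟨0, hM⟩ :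
          Fin M)) : ℕ) else 0) := by
      rw [hfun, hT]
      constructor
      · intro h1
        refine ⟨h1, fun e _ he' => ?_⟩
        rw [dif_neg he']
      · exact fun h1 => h1.1
    by_cases h1 : IsTight ω' U V (fun e : Fin n →₀ ℕ => if he : e ∈ f'.support then
        (m' ⟨e, he⟩ : ℕ) else 0)
    · rw [if_pos h1, if_pos (hiff.mp h1)]
      set G : (Fin n →₀ ℕ) → L := fun e => ((ah p (if he : e ∈ f'.support then
        (m' ⟨e, he⟩ : ℕ) else 0) : ℚ) : L) * Φ.T (algebraMap k κ (f.coeff e)) ^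
          (p ^ i * (if he : e ∈ f'.support then (m' ⟨e, he⟩ : ℕ) else 0)) with hG
      have e1 : ∏ e : f'.support, ((ah p (m' e : ℕ) : ℚ) : L) *
          Φ.T (algebraMap k κ (f'.coeff (e : Fin n →₀ ℕ))) ^ (p ^ i * (m' e : ℕ)) =
          ∏ e ∈ f'.support, G e := by
        rw [← Finset.prod_coe_sort f'.support G]
        refine Finset.prod_congr rfl fun e _ => ?_
        rw [hG]
        simp only [Finset.coe_mem, dif_pos, Subtype.coe_eta]
        rw [h.coeff e e.2]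
      have e2 : ∏ e : f.support, ((ah p ((if he' : (e : Fin n →₀ ℕ) ∈ f'.support then
          m' ⟨_, he'⟩ else ⟨0, hM⟩ : Fin M) : ℕ) : ℚ) : L) *
          Φ.T (algebraMap k κ (f.coeff (e : Fin n →₀ ℕ))) ^ (p ^ i * (((if he' :
            (e : Fin n →₀ ℕ) ∈ f'.support then m' ⟨_, he'⟩ else ⟨0, hM⟩ : Fin M)) : ℕ)) =
          ∏ e ∈ f.support, G e := by
        rw [← Finset.prod_coe_sort f.support G]
        refine Finset.prod_congr rfl fun e _ => ?_
        rw [hG]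
        by_cases he' : (e : Fin n →₀ ℕ) ∈ f'.support
        · simp only [he', dif_pos]
        · simp only [he', dif_neg, not_false_eq_true]
      rw [e1, e2]
      refine Finset.prod_subset h.sub fun e _ he' => ?_
      rw [hG]
      simp only [he', dif_neg, not_false_eq_true, mul_zero, pow_zero, mul_one, ah_zero,
        Rat.cast_one]
    · rw [if_neg h1, if_neg (fun h2 => h1 (hiff.mpr h2))]

end

end Pool.Agent.Helper9.WS
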